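import Pool.Agent.W770.KP.Stm

set_option autoImplicit false

open scoped Classical

namespace Pool.Agent.W591.KP

open Pool.Agent.W770.KP

theorem shift_add {F σ : Type} [Field F] (z : σ → F) (P Q : MvPolynomial σ F) :
    shift z (P + Q) = shift z P + shift z Q := by
  unfold shift; exact map_add _ _ _

theorem shift_C_mul {F σ : Type} [Field F] (z : σ → F) (a : F) (P : MvPolynomial σ F) :
    shift z (MvPolynomial.C a * P) = MvPolynomial.C a * shift z P := by
  unfold shift
  rw [map_mul, MvPolynomial.bind₁_C_right]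

theorem lc_add {F σ ι : Type} [Field F] [Fintype ι] (A : ι → MvPolynomial σ F) (c d : ι → F) :
    lc A (c + d) = lc A c + lc A d := by
  unfold lc
  rw [← Finset.sum_add_distrib]
  refine Finset.sum_congr rfl fun s _ => ?_
  rw [Pi.add_apply, map_add, add_mul]

theorem lc_smul {F σ ι : Type} [Field F] [Fintype ι] (A : ι → MvPolynomial σ F) (a : F)
    (c : ι → F) : lc A (a • c) = MvPolynomial.C a * lc A c := by
  unfold lc
  rw [Finset.mul_sum]
  refine Finset.sum_congr rfl fun s _ => ?_
  rw [Pi.smul_apply, smul_eq_mul, map_mul, mul_assoc]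

theorem kp_cm : S_CM := by
  intro F _ _ n hn g ι _ A hcard
  let Φ : (ι → F) →ₗ[F] ((Σ x : Fin n → F, (Fin n → Fin (g x))) → F) :=
    { toFun := fun c i => (shift i.1 (lc A c)).coeff
        (Finsupp.equivFunOnFinite.symm (fun j => ((i.2 j : Fin (g i.1)) : ℕ)))
      map_add' := by
        intro c d
        funext i
        simp only [Pi.add_apply]
        rw [lc_add, shift_add, MvPolynomial.coeff_add]
      map_smul' := by
        intro a c
        funext i
        simp only [Pi.smul_apply, RingHom.id_apply, smul_eq_mul]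
        rw [lc_smul, shift_C_mul, MvPolynomial.coeff_C_mul] }
  have hlt : Module.finrank F ((Σ x : Fin n → F, (Fin n → Fin (g x))) → F)
      < Module.finrank F (ι → F) := by
    rw [Module.finrank_fintype_fun_eq_card, Module.finrank_fintype_fun_eq_card,
      Fintype.card_sigma]
    simpa using hcard
  have hker : LinearMap.ker Φ ≠ ⊥ := LinearMap.ker_ne_bot_of_finrank_lt hlt
  obtain ⟨c, hc, hc0⟩ := Submodule.exists_mem_ne_zero_of_ne_bot hker
  refine ⟨c, hc0, ?_⟩
  intro x α hα
  have hle : ∀ j, α j < g x := fun j => lt_of_le_of_lt (Finsupp.le_degree j α) hα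
  have h1 := congrFun (LinearMap.mem_ker.mp hc) ⟨x, fun j => ⟨α j, hle j⟩⟩
  have h2 : (Finsupp.equivFunOnFinite.symm (fun j => α j) : Fin n →₀ ℕ) = α := by
    ext j; rfl
  have h3 : (shift x (lc A c)).coeff
      (Finsupp.equivFunOnFinite.symm (fun j => α j)) = 0 := h1
  rw [h2] at h3
  exact h3

end Pool.Agent.W591.KP
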